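import Pool.Agent.X141.K4.Classes

/-!
# Weights without uncovered pairs (Motzkin–Straus moves) for `K_4^3`-free 3-graphs
-/

set_option autoImplicit false
open Finset
open scoped Classical

namespace Pool.Agent.X8.K4

open Pool.Agent.X141.K4 (Bd Good Unc unc_symm cw classes_raw)

section
variable {V : Type} [Fintype V]

/-- the ordered edge polynomial -/
noncomputable def PP (R : V → V → V → Prop) (w : V → ℝ) : ℝ :=
  ∑ a, ∑ b, ∑ c, (if R a b c then w a * w b * w c else 0)

/-- the weight of the uncovered ordered pairs, the pairs `(b, b)` included -/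
noncomputable def UU (R : V → V → V → Prop) (w : V → ℝ) : ℝ :=
  ∑ b, ∑ c, (if (b = c ∨ Unc R b c) then w b * w c else 0)

theorem poly_bound {W α s : ℝ} (hW : 0 ≤ W) (hα : 0 ≤ α) (h1 : α ^ 2 ≤ s) (h2 : s ≤ α * W) :
    0.15 * W * s ≤ 3 * α * (s - α ^ 2) + 5 / 9 * α ^ 3 + 0.00192 * W ^ 3 := by
  rcases le_total (0.15 * W) (3 * α) with h | h
  · have e1 : 3 * α * (s - α ^ 2) + 5 / 9 * α ^ 3 + 0.00192 * W ^ 3 - 0.15 * W * s =
        (3 * α - 0.15 * W) * (s - α ^ 2) + (5 / 9 * ((α - 0.18 * W) ^ 2 * (α + 0.09 * W)) +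
          0.0003 * W ^ 3) := by ring
    have e2 : 0 ≤ (3 * α - 0.15 * W) * (s - α ^ 2) := mul_nonneg (by linarith) (by linarith)
    have e3 : 0 ≤ 5 / 9 * ((α - 0.18 * W) ^ 2 * (α + 0.09 * W)) := by positivity
    have e4 : 0 ≤ 0.0003 * W ^ 3 := by positivity
    linarith
  · have hαW : α ≤ 0.05 * W := by linarith
    have e1 : 3 * α * (s - α ^ 2) + 5 / 9 * α ^ 3 + 0.00192 * W ^ 3 - 0.15 * W * s =
        (0.15 * W - 3 * α) * (α * W - s) +
        ((10777 / 3750 * W - 22 / 9 * α) * (α - 129 / 5000 * W) ^ 2 +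
          W ^ 2 * ((0.00192 - 10777 / 3750 * (129 / 5000) ^ 2) * W -
            (0.15 - 2 * (10777 / 3750) * (129 / 5000) - 22 / 9 * (129 / 5000) ^ 2) * α)) := by
      ring
    have e2 : 0 ≤ (0.15 * W - 3 * α) * (α * W - s) := mul_nonneg (by linarith) (by linarith)
    have e3 : 0 ≤ (10777 / 3750 * W - 22 / 9 * α) * (α - 129 / 5000 * W) ^ 2 :=
      mul_nonneg (by linarith) (sq_nonneg _)
    have e4 : 0 ≤ W ^ 2 * ((0.00192 - 10777 / 3750 * (129 / 5000) ^ 2) * W -
            (0.15 - 2 * (10777 / 3750) * (129 / 5000) - 22 / 9 * (129 / 5000) ^ 2) * α) := by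
      apply mul_nonneg (by positivity)
      norm_num
      linarith
    linarith

/-- the base case: no uncovered pair in the support -/
theorem base (hB : Bd) {R : V → V → V → Prop} (hR : Good R) (hirr : ∀ a b c, R a b c → a ≠ b)
    (w : V → ℝ) (hw : ∀ v, 0 ≤ w v) (hs : ∀ x y, x ≠ y → Unc R x y → w x * w y = 0) :
    PP R w + 0.15 * (∑ v, w v) * UU R w ≤ 0.55948 * (∑ v, w v) ^ 3 := by
  have hU : UU R w = ∑ v, w v ^ 2 := by
    unfold UU
    refine sum_congr rfl fun b _ => ?_
    have h1 : ∀ c, (if (b = c ∨ Unc R b c) then w b * w c else 0) =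
        (if b = c then w b * w c else 0) := by
      intro c
      by_cases hbc : b = c
      · rw [if_pos (Or.inl hbc), if_pos hbc]
      · rw [if_neg hbc]
        split_ifs with h
        · rcases h with h | h
          · exact absurd h hbc
          · exact hs b c hbc h
        · rfl
    rw [sum_congr rfl fun c _ => h1 c]
    simp [sq]
  rcases isEmpty_or_nonempty V with hV | hV
  · have e1 : PP R w = 0 := by unfold PP; simp
    rw [e1, hU]
    simp
  · obtain ⟨v0, -, hv0⟩ := exists_max_image univ w univ_nonempty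
    obtain ⟨κ, hκ⟩ : ∃ κ : V ≃ Fin (Fintype.card V), κ = Fintype.equivFin V := ⟨_, rfl⟩
    have h := classes_raw hB hR (κ := fun v => κ v)
      (fun a b c hr he => hirr a b c hr (κ.injective he)) w hw (κ v0)
    have hcw : ∀ v, cw (fun v => κ v) w (κ v) = w v := by
      intro v
      unfold cw
      rw [sum_eq_single v]
      · rw [if_pos rfl]
      · intro b _ hb
        rw [if_neg]
        intro he
        exact hb (κ.injective he)
      · intro hn
        exact absurd (mem_univ v) hn
    have hsum : ∑ i, cw (fun v => κ v) w i ^ 2 = ∑ v, w v ^ 2 := by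
      rw [← κ.sum_comp]
      exact sum_congr rfl fun v _ => by rw [hcw]
    have her := add_sum_erase univ (fun i => cw (fun v => κ v) w i ^ 2) (mem_univ (κ v0))
    rw [hsum, hcw] at her
    rw [hcw] at h
    obtain ⟨α, hα⟩ : ∃ α, α = w v0 := ⟨_, rfl⟩
    obtain ⟨s, hsd⟩ : ∃ s, s = ∑ v, w v ^ 2 := ⟨_, rfl⟩
    obtain ⟨W, hW⟩ : ∃ W, W = ∑ v, w v := ⟨_, rfl⟩
    have hα0 : 0 ≤ α := hα ▸ hw v0
    have hW0 : 0 ≤ W := hW ▸ sum_nonneg fun v _ => hw v
    have h1 : α ^ 2 ≤ s := by
      rw [hα, hsd]
      exact single_le_sum (f := fun v => w v ^ 2) (fun v _ => sq_nonneg _) (mem_univ v0)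
    have h2 : s ≤ α * W := by
      rw [hsd, hW, mul_sum]
      refine sum_le_sum fun v hv => ?_
      rw [sq, hα]
      exact mul_le_mul_of_nonneg_right (hv0 v hv) (hw v)
    have hp := poly_bound hW0 hα0 h1 h2
    have her' : ∑ i ∈ univ.erase (κ v0), cw (fun v => κ v) w i ^ 2 = s - α ^ 2 := by
      rw [hsd, hα]
      linarith
    rw [her', ← hα, ← hW] at h
    rw [hU, ← hsd, ← hW]
    unfold PP
    linarith

/-- the whole weight of `y` is moved to `x` -/
noncomputable def mv (w : V → ℝ) (x y : V) : V → ℝ := fun v =>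
  if v = x then w x + w y else if v = y then 0 else w v

theorem mv_sum {w : V → ℝ} {x y : V} (hxy : x ≠ y) : ∑ v, mv w x y v = ∑ v, w v := by
  have h1 : ∀ v, mv w x y v = w v + ((if v = x then w y else 0) - (if v = y then w y else 0)) := by
    intro v
    unfold mv
    by_cases h1 : v = x
    · rw [if_pos h1, if_pos h1, if_neg (fun h => hxy (h1.symm.trans h)), h1]
      ring
    · by_cases h2 : v = y
      · rw [if_neg h1, if_pos h2, if_neg h1, if_pos h2, h2]
        ring
      · rw [if_neg h1, if_neg h2, if_neg h1, if_neg h2]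
        ring
  rw [sum_congr rfl fun v _ => h1 v, sum_add_distrib, sum_sub_distrib]
  simp

theorem mv_nonneg {w : V → ℝ} (hw : ∀ v, 0 ≤ w v) (x y : V) : ∀ v, 0 ≤ mv w x y v := by
  intro v
  unfold mv
  split_ifs
  · exact add_nonneg (hw x) (hw y)
  · exact le_rfl
  · exact hw v

/-- one Motzkin–Straus move -/
theorem move {R : V → V → V → Prop} (hR : Good R) (hirr : ∀ a b c, R a b c → a ≠ b)
    (w : V → ℝ) {x y : V} (hxy : x ≠ y) (hu : Unc R x y)
    (hx : 0 < w x) (hy : 0 < w y) :
    ∃ θ : ℝ, 0 ≤ θ ∧ θ ≤ 1 ∧ PP R w = θ * PP R (mv w x y) + (1 - θ) * PP R (mv w y x) ∧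
      UU R w = θ * UU R (mv w x y) + (1 - θ) * UU R (mv w y x) := by
  obtain ⟨s, hs⟩ : ∃ s, s = w x + w y := ⟨_, rfl⟩
  have hs0 : 0 < s := by rw [hs]; linarith
  obtain ⟨θ, hθ⟩ : ∃ θ, θ = w x / s := ⟨_, rfl⟩
  have hθs : θ * s = w x := by rw [hθ]; field_simp
  have hθs' : (1 - θ) * s = w y := by
    have : (1 - θ) * s = s - θ * s := by ring
    rw [this, hθs, hs]; ring
  have hθ0 : 0 ≤ θ := by rw [hθ]; positivity
  have hθ1 : θ ≤ 1 := by
    rw [hθ, div_le_one hs0, hs]; linarith
  have hc : ∀ v, w v = θ * mv w x y v + (1 - θ) * mv w y x v := by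
    intro v
    unfold mv
    by_cases h1 : v = x
    · rw [if_pos h1, if_neg (fun h => hxy (h1.symm.trans h)), if_pos h1, h1, ← hs, hθs]
      ring
    · by_cases h2 : v = y
      · rw [if_neg h1, if_pos h2, if_pos h2, h2, add_comm (w y), ← hs, hθs']
        ring
      · rw [if_neg h1, if_neg h2, if_neg h2, if_neg h1]
        ring
  have hout : ∀ v, ¬ (v = x ∨ v = y) → mv w x y v = w v ∧ mv w y x v = w v := by
    intro v hv
    rw [not_or] at hv
    unfold mv
    rw [if_neg hv.1, if_neg hv.2, if_neg hv.2, if_neg hv.1]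
    exact ⟨rfl, rfl⟩
  have hkey : ∀ a b c, R a b c → (a = x ∨ a = y) → ¬ (b = x ∨ b = y) := by
    rintro a b c hr (rfl | rfl) (rfl | rfl)
    · exact hirr _ _ _ hr rfl
    · exact hu _ hr
    · exact unc_symm hR hu _ hr
    · exact hirr _ _ _ hr rfl
  refine ⟨θ, hθ0, hθ1, ?_, ?_⟩
  · unfold PP
    simp only [mul_sum, ← sum_add_distrib]
    refine sum_congr rfl fun a _ => sum_congr rfl fun b _ => sum_congr rfl fun c _ => ?_
    by_cases hr : R a b c
    · rw [if_pos hr, if_pos hr, if_pos hr]
      by_cases ha : a = x ∨ a = y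
      · obtain ⟨b1, b2⟩ := hout b (hkey a b c hr ha)
        obtain ⟨c1, c2⟩ := hout c (hkey a c b (hR.s2 _ _ _ hr) ha)
        rw [b1, b2, c1, c2]
        linear_combination (w b * w c) * hc a
      · obtain ⟨a1, a2⟩ := hout a ha
        by_cases hb : b = x ∨ b = y
        · obtain ⟨c1, c2⟩ := hout c (hkey b c a (hR.s2 _ _ _ (hR.s1 _ _ _ hr)) hb)
          rw [a1, a2, c1, c2]
          linear_combination (w a * w c) * hc b
        · obtain ⟨b1, b2⟩ := hout b hb
          rw [a1, a2, b1, b2]
          linear_combination (w a * w b) * hc c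
    · rw [if_neg hr, if_neg hr, if_neg hr]
      ring
  · obtain ⟨d, hd⟩ : ∃ d : V → ℝ, d = fun v => mv w x y v - mv w y x v := ⟨_, rfl⟩
    have hd1 : ∀ v, d v = s * ((if v = x then 1 else 0) - (if v = y then 1 else 0)) := by
      intro v
      rw [hd]
      unfold mv
      by_cases h1 : v = x
      · have h2 : v ≠ y := fun h => hxy (h1.symm.trans h)
        simp only [if_pos h1, if_neg h2]
        rw [← hs]; ring
      · by_cases h2 : v = y
        · simp only [if_neg h1, if_pos h2]
          rw [add_comm (w y), ← hs]; ring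
        · simp only [if_neg h1, if_neg h2]
          ring
    have hlin : ∀ f : V → ℝ, ∑ v, f v * d v = s * (f x - f y) := by
      intro f
      have h1 : ∀ v, f v * d v = s * ((if v = x then f v else 0) - (if v = y then f v else 0)) := by
        intro v
        rw [hd1]
        split_ifs <;> ring
      rw [sum_congr rfl fun v _ => h1 v, ← mul_sum, sum_sub_distrib]
      simp
    have hzero : ∑ b, ∑ c, (if (b = c ∨ Unc R b c) then d b * d c else 0) = 0 := by
      have h1 : ∀ b, ∑ c, (if (b = c ∨ Unc R b c) then d b * d c else 0) =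
          (s * ((if (b = x ∨ Unc R b x) then 1 else 0) -
            (if (b = y ∨ Unc R b y) then 1 else 0))) * d b := by
        intro b
        rw [← hlin (fun c => if (b = c ∨ Unc R b c) then (1 : ℝ) else 0), sum_mul]
        refine sum_congr rfl fun c _ => ?_
        split_ifs <;> ring
      rw [sum_congr rfl fun b _ => h1 b, hlin]
      rw [if_pos (Or.inl rfl), if_pos (Or.inr hu), if_pos (Or.inr (unc_symm hR hu)),
        if_pos (Or.inl rfl)]
      ring
    have hq : ∀ b c : V, (if (b = c ∨ Unc R b c) then w b * w c else 0) =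
        θ * (if (b = c ∨ Unc R b c) then mv w x y b * mv w x y c else 0) +
        (1 - θ) * (if (b = c ∨ Unc R b c) then mv w y x b * mv w y x c else 0) -
        θ * (1 - θ) * (if (b = c ∨ Unc R b c) then d b * d c else 0) := by
      intro b c
      split_ifs
      · rw [hc b, hc c, hd]
        ring
      · ring
    unfold UU
    rw [sum_congr rfl fun b _ => sum_congr rfl fun c _ => hq b c]
    simp only [sum_sub_distrib, sum_add_distrib, ← mul_sum]
    rw [hzero]
    ring

/-- **The inequality for edges and uncovered pairs.** -/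
theorem main (hB : Bd) {R : V → V → V → Prop} (hR : Good R) (hirr : ∀ a b c, R a b c → a ≠ b) :
    ∀ n : ℕ, ∀ w : V → ℝ, (∀ v, 0 ≤ w v) → (univ.filter fun v => w v ≠ 0).card ≤ n →
    PP R w + 0.15 * (∑ v, w v) * UU R w ≤ 0.55948 * (∑ v, w v) ^ 3 := by
  intro n
  induction n with
  | zero =>
    intro w hw hn
    refine base hB hR hirr w hw fun x y _ _ => ?_
    rw [Nat.le_zero, card_eq_zero, filter_eq_empty_iff] at hn
    have := hn (mem_univ x)
    push Not at this
    rw [this, zero_mul]
  | succ n ih =>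
    intro w hw hn
    by_cases h : ∃ x y, x ≠ y ∧ Unc R x y ∧ w x * w y ≠ 0
    · obtain ⟨x, y, hxy, hu, hne⟩ := h
      have hx : 0 < w x := lt_of_le_of_ne (hw x) fun h => hne (by rw [← h, zero_mul])
      have hy : 0 < w y := lt_of_le_of_ne (hw y) fun h => hne (by rw [← h, mul_zero])
      obtain ⟨θ, h0, h1, hP, hU⟩ := move hR hirr w hxy hu hx hy
      have hcard : ∀ x y, x ≠ y → 0 < w x → 0 < w y →
          (univ.filter fun v => mv w x y v ≠ 0).card ≤ n := by
        intro x y hxy hx hy
        have hlt : (univ.filter fun v => mv w x y v ≠ 0).card <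
            (univ.filter fun v => w v ≠ 0).card := by
          apply card_lt_card
          rw [ssubset_iff_of_subset]
          · refine ⟨y, ?_, ?_⟩
            · rw [mem_filter]; exact ⟨mem_univ _, hy.ne'⟩
            · rw [mem_filter]
              rintro ⟨-, hc⟩
              apply hc
              unfold mv
              rw [if_neg (Ne.symm hxy), if_pos rfl]
          · intro v hv
            rw [mem_filter] at hv ⊢
            refine ⟨mem_univ _, ?_⟩
            have hv2 := hv.2
            unfold mv at hv2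
            by_cases h1 : v = x
            · rw [h1]; exact hx.ne'
            · by_cases h2 : v = y
              · rw [if_neg h1, if_pos h2] at hv2
                exact absurd rfl hv2
              · rw [if_neg h1, if_neg h2] at hv2
                exact hv2
        omega
      have i1 := ih (mv w x y) (mv_nonneg hw x y) (hcard x y hxy hx hy)
      have i2 := ih (mv w y x) (mv_nonneg hw y x) (hcard y x (Ne.symm hxy) hy hx)
      rw [mv_sum hxy] at i1
      rw [mv_sum (Ne.symm hxy)] at i2
      rw [hP, hU]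
      have j1 := mul_le_mul_of_nonneg_left i1 h0
      have j2 := mul_le_mul_of_nonneg_left i2 (show 0 ≤ 1 - θ by linarith)
      have e : θ * PP R (mv w x y) + (1 - θ) * PP R (mv w y x) +
          0.15 * (∑ v, w v) * (θ * UU R (mv w x y) + (1 - θ) * UU R (mv w y x)) =
          θ * (PP R (mv w x y) + 0.15 * (∑ v, w v) * UU R (mv w x y)) +
          (1 - θ) * (PP R (mv w y x) + 0.15 * (∑ v, w v) * UU R (mv w y x)) := by ring
      rw [e]
      linarith
    · push Not at h
      exact base hB hR hirr w hw fun x y hxy hu => h x y hxy hu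

end
end Pool.Agent.X8.K4
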