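import Pool.Agent.X141.K4.Edges
import Pool.Agent.X8.K4.MS

/-!
# Edges and uncovered pairs of `K_4^3`-free 3-graphs, with a parameter
-/

set_option autoImplicit false
open Finset
open scoped Classical

namespace Pool.Agent.X8.K4

open Pool.Agent.X141.K4 (Bd Good Unc unc_symm cw classes_raw RH Free rh_good ord_ge)

section
variable {V : Type} [Fintype V]

theorem poly_bound2 {t W α s : ℝ} (ht : 0 ≤ t) (ht1 : t ≤ 1 / 38) (hW : 0 ≤ W) (hα : 0 ≤ α)
    (h1 : α ^ 2 ≤ s) (h2 : s ≤ α * W) :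
    (6 * t - 22 / 3 * t ^ 2) * W * s ≤
      3 * α * (s - α ^ 2) + 5 / 9 * α ^ 3 + (3 * t ^ 2 - 44 / 9 * t ^ 3) * W ^ 3 := by
  obtain ⟨l, hl⟩ : ∃ l, l = 6 * t - 22 / 3 * t ^ 2 := ⟨_, rfl⟩
  have ht2 : 0 ≤ t ^ 2 := sq_nonneg t
  have htt : t ^ 2 ≤ 1 / 38 * t := by nlinarith
  have hl0 : 0 ≤ l := by rw [hl]; nlinarith
  have hl6 : l ≤ 6 * t := by rw [hl]; linarith
  have hl3 : l ^ 3 ≤ (6 * t) ^ 3 := pow_le_pow_left₀ hl0 hl6 3
  have ht3 : t ^ 3 ≤ 1 / 38 * t ^ 2 := by
    have : t ^ 3 = t * t ^ 2 := by ring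
    rw [this]
    exact mul_le_mul_of_nonneg_right ht1 ht2
  have hc : 12 / 25 * l ^ 3 ≤ 3 * t ^ 2 - 44 / 9 * t ^ 3 := by nlinarith
  rw [← hl]
  rcases le_total (l * W) (3 * α) with h | h
  · have e1 : 3 * α * (s - α ^ 2) + 5 / 9 * α ^ 3 + (3 * t ^ 2 - 44 / 9 * t ^ 3) * W ^ 3 -
        l * W * s =
        (3 * α - l * W) * (s - α ^ 2) +
          (5 / 9 * ((α - 6 / 5 * (l * W)) ^ 2 * (α + 3 / 5 * (l * W))) +
          ((3 * t ^ 2 - 44 / 9 * t ^ 3) - 12 / 25 * l ^ 3) * W ^ 3) := by ring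
    have e2 : 0 ≤ (3 * α - l * W) * (s - α ^ 2) := mul_nonneg (by linarith) (by linarith)
    have e3 : 0 ≤ 5 / 9 * ((α - 6 / 5 * (l * W)) ^ 2 * (α + 3 / 5 * (l * W))) := by positivity
    have e4 : 0 ≤ ((3 * t ^ 2 - 44 / 9 * t ^ 3) - 12 / 25 * l ^ 3) * W ^ 3 :=
      mul_nonneg (by linarith) (by positivity)
    linarith
  · have e1 : 3 * α * (s - α ^ 2) + 5 / 9 * α ^ 3 + (3 * t ^ 2 - 44 / 9 * t ^ 3) * W ^ 3 -
        l * W * s =
        (l * W - 3 * α) * (α * W - s) +
        (α - t * W) ^ 2 * (3 * W - 22 / 9 * (α + 2 * (t * W))) := by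
      rw [hl]; ring
    have e2 : 0 ≤ (l * W - 3 * α) * (α * W - s) := mul_nonneg (by linarith) (by linarith)
    have htW : t * W ≤ 1 / 38 * W := mul_le_mul_of_nonneg_right ht1 hW
    have hlW : l * W ≤ 6 * t * W := mul_le_mul_of_nonneg_right hl6 hW
    have e3 : 0 ≤ (α - t * W) ^ 2 * (3 * W - 22 / 9 * (α + 2 * (t * W))) :=
      mul_nonneg (sq_nonneg _) (by linarith)
    linarith

/-- the base case: no uncovered pair in the support -/
theorem base2 (hB : Bd) {R : V → V → V → Prop} (hR : Good R) (hirr : ∀ a b c, R a b c → a ≠ b)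
    {t : ℝ} (ht : 0 ≤ t) (ht1 : t ≤ 1 / 38)
    (w : V → ℝ) (hw : ∀ v, 0 ≤ w v) (hs : ∀ x y, x ≠ y → Unc R x y → w x * w y = 0) :
    PP R w + (6 * t - 22 / 3 * t ^ 2) * (∑ v, w v) * UU R w ≤
      (0.55756 + (3 * t ^ 2 - 44 / 9 * t ^ 3)) * (∑ v, w v) ^ 3 := by
  have hU : UU R w = ∑ v, w v ^ 2 := by
    unfold UU
    refine sum_congr rfl fun b _ => ?_
    have h1 : ∀ c, (if (b = c ∨ Unc R b c) then w b * w c else 0) =
        (if b = c then w b * w c else 0) := by
      intro c
      by_cases hbc : b = c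
      · rw [if_pos (Or.inl hbc), if_pos hbc]
      · rw [if_neg hbc]
        split_ifs with h
        · rcases h with h | h
          · exact absurd h hbc
          · exact hs b c hbc h
        · rfl
    rw [sum_congr rfl fun c _ => h1 c]
    simp [sq]
  rcases isEmpty_or_nonempty V with hV | hV
  · have e1 : PP R w = 0 := by unfold PP; simp
    rw [e1, hU]
    simp
  · obtain ⟨v0, -, hv0⟩ := exists_max_image univ w univ_nonempty
    obtain ⟨κ, hκ⟩ : ∃ κ : V ≃ Fin (Fintype.card V), κ = Fintype.equivFin V := ⟨_, rfl⟩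
    have h := classes_raw hB hR (κ := fun v => κ v)
      (fun a b c hr he => hirr a b c hr (κ.injective he)) w hw (κ v0)
    have hcw : ∀ v, cw (fun v => κ v) w (κ v) = w v := by
      intro v
      unfold cw
      rw [sum_eq_single v]
      · rw [if_pos rfl]
      · intro b _ hb
        rw [if_neg]
        intro he
        exact hb (κ.injective he)
      · intro hn
        exact absurd (mem_univ v) hn
    have hsum : ∑ i, cw (fun v => κ v) w i ^ 2 = ∑ v, w v ^ 2 := by
      rw [← κ.sum_comp]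
      exact sum_congr rfl fun v _ => by rw [hcw]
    have her := add_sum_erase univ (fun i => cw (fun v => κ v) w i ^ 2) (mem_univ (κ v0))
    rw [hsum, hcw] at her
    rw [hcw] at h
    obtain ⟨α, hα⟩ : ∃ α, α = w v0 := ⟨_, rfl⟩
    obtain ⟨s, hsd⟩ : ∃ s, s = ∑ v, w v ^ 2 := ⟨_, rfl⟩
    obtain ⟨W, hW⟩ : ∃ W, W = ∑ v, w v := ⟨_, rfl⟩
    have hα0 : 0 ≤ α := hα ▸ hw v0
    have hW0 : 0 ≤ W := hW ▸ sum_nonneg fun v _ => hw v
    have h1 : α ^ 2 ≤ s := by
      rw [hα, hsd]
      exact single_le_sum (f := fun v => w v ^ 2) (fun v _ => sq_nonneg _) (mem_univ v0)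
    have h2 : s ≤ α * W := by
      rw [hsd, hW, mul_sum]
      refine sum_le_sum fun v hv => ?_
      rw [sq, hα]
      exact mul_le_mul_of_nonneg_right (hv0 v hv) (hw v)
    have hp := poly_bound2 ht ht1 hW0 hα0 h1 h2
    have her' : ∑ i ∈ univ.erase (κ v0), cw (fun v => κ v) w i ^ 2 = s - α ^ 2 := by
      rw [hsd, hα]
      linarith
    rw [her', ← hα, ← hW] at h
    rw [hU, ← hsd, ← hW]
    unfold PP
    linarith

/-- **The inequality for edges and uncovered pairs.** -/
theorem main2 (hB : Bd) {R : V → V → V → Prop} (hR : Good R) (hirr : ∀ a b c, R a b c → a ≠ b)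
    {t : ℝ} (ht : 0 ≤ t) (ht1 : t ≤ 1 / 38) :
    ∀ n : ℕ, ∀ w : V → ℝ, (∀ v, 0 ≤ w v) → (univ.filter fun v => w v ≠ 0).card ≤ n →
    PP R w + (6 * t - 22 / 3 * t ^ 2) * (∑ v, w v) * UU R w ≤
      (0.55756 + (3 * t ^ 2 - 44 / 9 * t ^ 3)) * (∑ v, w v) ^ 3 := by
  intro n
  induction n with
  | zero =>
    intro w hw hn
    refine base2 hB hR hirr ht ht1 w hw fun x y _ _ => ?_
    rw [Nat.le_zero, card_eq_zero, filter_eq_empty_iff] at hn
    have := hn (mem_univ x)
    push Not at this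
    rw [this, zero_mul]
  | succ n ih =>
    intro w hw hn
    by_cases h : ∃ x y, x ≠ y ∧ Unc R x y ∧ w x * w y ≠ 0
    · obtain ⟨x, y, hxy, hu, hne⟩ := h
      have hx : 0 < w x := lt_of_le_of_ne (hw x) fun h => hne (by rw [← h, zero_mul])
      have hy : 0 < w y := lt_of_le_of_ne (hw y) fun h => hne (by rw [← h, mul_zero])
      obtain ⟨θ, h0, h1, hP, hU⟩ := move hR hirr w hxy hu hx hy
      have hcard : ∀ x y, x ≠ y → 0 < w x → 0 < w y →
          (univ.filter fun v => mv w x y v ≠ 0).card ≤ n := by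
        intro x y hxy hx hy
        have hlt : (univ.filter fun v => mv w x y v ≠ 0).card <
            (univ.filter fun v => w v ≠ 0).card := by
          apply card_lt_card
          rw [ssubset_iff_of_subset]
          · refine ⟨y, ?_, ?_⟩
            · rw [mem_filter]; exact ⟨mem_univ _, hy.ne'⟩
            · rw [mem_filter]
              rintro ⟨-, hc⟩
              apply hc
              unfold mv
              rw [if_neg (Ne.symm hxy), if_pos rfl]
          · intro v hv
            rw [mem_filter] at hv ⊢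
            refine ⟨mem_univ _, ?_⟩
            have hv2 := hv.2
            unfold mv at hv2
            by_cases h1 : v = x
            · rw [h1]; exact hx.ne'
            · by_cases h2 : v = y
              · rw [if_neg h1, if_pos h2] at hv2
                exact absurd rfl hv2
              · rw [if_neg h1, if_neg h2] at hv2
                exact hv2
        omega
      have i1 := ih (mv w x y) (mv_nonneg hw x y) (hcard x y hxy hx hy)
      have i2 := ih (mv w y x) (mv_nonneg hw y x) (hcard y x (Ne.symm hxy) hy hx)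
      rw [mv_sum hxy] at i1
      rw [mv_sum (Ne.symm hxy)] at i2
      rw [hP, hU]
      have j1 := mul_le_mul_of_nonneg_left i1 h0
      have j2 := mul_le_mul_of_nonneg_left i2 (show 0 ≤ 1 - θ by linarith)
      have e : θ * PP R (mv w x y) + (1 - θ) * PP R (mv w y x) +
          (6 * t - 22 / 3 * t ^ 2) * (∑ v, w v) *
            (θ * UU R (mv w x y) + (1 - θ) * UU R (mv w y x)) =
          θ * (PP R (mv w x y) + (6 * t - 22 / 3 * t ^ 2) * (∑ v, w v) * UU R (mv w x y)) +
          (1 - θ) * (PP R (mv w y x) +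
            (6 * t - 22 / 3 * t ^ 2) * (∑ v, w v) * UU R (mv w y x)) := by ring
      rw [e]
      linarith
    · push Not at h
      exact base2 hB hR hirr ht ht1 w hw fun x y hxy hu => h x y hxy hu

end
end Pool.Agent.X8.K4
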