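import Pool.Agent.X141.K4.Edges
import Pool.Agent.X8.K4.MS2

/-!
# Edges and uncovered pairs of `K_4^3`-free 3-graphs
-/

set_option autoImplicit false
open Finset
open scoped Classical

namespace Pool.Agent.X8.K4

open Pool.Agent.X141.K4 (Bd Good Unc RH Free rh_good ord_ge)

section
variable {V : Type} [Fintype V]

/-- the ordered pairs of vertices which are equal or in no common edge -/
noncomputable def Pairs (H : Finset (Finset V)) : Finset (V × V) :=
  univ.filter fun p => p.1 = p.2 ∨ ∀ e ∈ H, ¬ (p.1 ∈ e ∧ p.2 ∈ e)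

/-- their weight -/
noncomputable def UW (H : Finset (Finset V)) (w : V → ℝ) : ℝ := ∑ p ∈ Pairs H, w p.1 * w p.2

theorem uw_le (H : Finset (Finset V)) {w : V → ℝ} (hw : ∀ v, 0 ≤ w v) :
    UW H w ≤ UU (RH H) w := by
  unfold UW UU Pairs
  rw [sum_filter, Fintype.sum_prod_type]
  refine sum_le_sum fun x _ => sum_le_sum fun y _ => ?_
  have h0 := mul_nonneg (hw x) (hw y)
  by_cases h : x = y ∨ ∀ e ∈ H, ¬ (x ∈ e ∧ y ∈ e)
  · have h2 : x = y ∨ Unc (RH H) x y := by
      rcases h with h | h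
      · exact Or.inl h
      · right
        intro z hz
        exact h _ hz ⟨by simp, by simp⟩
    rw [if_pos h, if_pos h2]
  · rw [if_neg h]
    split_ifs
    · exact h0
    · exact le_rfl

theorem uw_nonneg (H : Finset (Finset V)) {w : V → ℝ} (hw : ∀ v, 0 ≤ w v) : 0 ≤ UW H w :=
  sum_nonneg fun _ _ => mul_nonneg (hw _) (hw _)

/-- the inequality for edges and uncovered pairs -/
theorem edges_main (hB : Bd) {H : Finset (Finset V)} (h3 : ∀ e ∈ H, e.card = 3) (hF : Free H)
    (w : V → ℝ) (hw : ∀ v, 0 ≤ w v) {t : ℝ} (ht : 0 ≤ t) (ht1 : t ≤ 1 / 38) :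
    6 * ∑ e ∈ H, ∏ v ∈ e, w v + (6 * t - 22 / 3 * t ^ 2) * (∑ v, w v) * UW H w ≤
      (0.55756 + (3 * t ^ 2 - 44 / 9 * t ^ 3)) * (∑ v, w v) ^ 3 := by
  have h := main2 hB (rh_good h3 hF)
    (fun a b c h => (Pool.Agent.H122R2.N6.distinct_of_mem h3 h).1) ht ht1 (Fintype.card V) w hw
    (card_le_univ _)
  have h1 := ord_ge h3 w hw
  have hW : 0 ≤ ∑ v, w v := sum_nonneg fun v _ => hw v
  have hl : 0 ≤ 6 * t - 22 / 3 * t ^ 2 := by nlinarith
  have h2 := mul_le_mul_of_nonneg_left (uw_le H hw) (mul_nonneg hl hW)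
  unfold PP at h
  linarith

/-- the bound for the edges if the uncovered pairs have weight at least `t W²` -/
theorem edges_t (hB : Bd) {H : Finset (Finset V)} (h3 : ∀ e ∈ H, e.card = 3) (hF : Free H)
    (w : V → ℝ) (hw : ∀ v, 0 ≤ w v) {t : ℝ} (ht : 0 ≤ t) (ht1 : t ≤ 1 / 38)
    (hU : t * (∑ v, w v) ^ 2 ≤ UW H w) :
    6 * ∑ e ∈ H, ∏ v ∈ e, w v ≤ (0.55756 - 3 * t ^ 2 + 22 / 9 * t ^ 3) * (∑ v, w v) ^ 3 := by
  have h := edges_main hB h3 hF w hw ht ht1
  have hW : 0 ≤ ∑ v, w v := sum_nonneg fun v _ => hw v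
  have hl : 0 ≤ 6 * t - 22 / 3 * t ^ 2 := by nlinarith
  have h2 := mul_le_mul_of_nonneg_left hU (mul_nonneg hl hW)
  have e : (6 * t - 22 / 3 * t ^ 2) * (∑ v, w v) * (t * (∑ v, w v) ^ 2) =
      (6 * t ^ 2 - 22 / 3 * t ^ 3) * (∑ v, w v) ^ 3 := by ring
  rw [e] at h2
  linarith

/-- Turán's bound for weights if the uncovered pairs have enough weight -/
theorem edges_turan (hB : Bd) {H : Finset (Finset V)} (h3 : ∀ e ∈ H, e.card = 3) (hF : Free H)
    (w : V → ℝ) (hw : ∀ v, 0 ≤ w v) (hU : (∑ v, w v) ^ 2 ≤ 38 * UW H w) :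
    54 * ∑ e ∈ H, ∏ v ∈ e, w v ≤ 5 * (∑ v, w v) ^ 3 := by
  have h := edges_t hB h3 hF w hw (t := 1 / 38) (by norm_num) le_rfl (by linarith)
  have hW : 0 ≤ ∑ v, w v := sum_nonneg fun v _ => hw v
  have h3' : 0 ≤ (∑ v, w v) ^ 3 := by positivity
  have e : ((0.55756 : ℝ) - 3 * (1 / 38) ^ 2 + 22 / 9 * (1 / 38) ^ 3) ≤ 5 / 9 := by norm_num
  have h2 := mul_le_mul_of_nonneg_right e h3'
  linarith

/-- Turán's bound for the number of edges -/
theorem edges_card (hB : Bd) {H : Finset (Finset V)} (h3 : ∀ e ∈ H, e.card = 3) (hF : Free H)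
    (hU : Fintype.card V ^ 2 ≤ 38 * (Pairs H).card) :
    54 * H.card ≤ 5 * Fintype.card V ^ 3 := by
  have h := edges_turan hB h3 hF (fun _ => (1 : ℝ)) (fun _ => zero_le_one) ?_
  · simp only [prod_const_one, sum_const, nsmul_eq_mul, mul_one, card_univ] at h
    exact_mod_cast h
  · unfold UW
    simp only [sum_const, nsmul_eq_mul, mul_one, card_univ]
    exact_mod_cast hU

/-- if `k` independent colour classes cover the vertices then the uncovered pairs have weight at
least `1/k` -/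
theorem uw_ge_classes {k : ℕ} {H : Finset (Finset V)} (c : V → Fin k)
    (hc : ∀ e ∈ H, ∀ x ∈ e, ∀ y ∈ e, c x = c y → x = y) {w : V → ℝ} (hw : ∀ v, 0 ≤ w v) :
    (∑ v, w v) ^ 2 ≤ k * UW H w := by
  have h1 : ∑ i : Fin k, (∑ v, if c v = i then w v else 0) ^ 2 ≤ UW H w := by
    have e1 : ∑ i : Fin k, (∑ v, if c v = i then w v else 0) ^ 2 =
        ∑ x, ∑ y, (if c x = c y then w x * w y else 0) := by
      have e2 : ∀ i : Fin k, (∑ v, if c v = i then w v else 0) ^ 2 =
          ∑ x, ∑ y, (if c x = i then (if c y = i then w x * w y else 0) else 0) := by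
        intro i
        rw [sq, sum_mul_sum]
        refine sum_congr rfl fun x _ => sum_congr rfl fun y _ => ?_
        split_ifs <;> simp
      rw [sum_congr rfl fun i _ => e2 i, sum_comm]
      refine sum_congr rfl fun x _ => ?_
      rw [sum_comm]
      refine sum_congr rfl fun y _ => ?_
      rw [sum_ite_eq]
      rw [if_pos (mem_univ _)]
      by_cases h : c x = c y
      · rw [if_pos h, if_pos h.symm]
      · rw [if_neg h, if_neg (fun h' => h h'.symm)]
    rw [e1]
    unfold UW Pairs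
    rw [sum_filter, Fintype.sum_prod_type]
    refine sum_le_sum fun x _ => sum_le_sum fun y _ => ?_
    have h0 := mul_nonneg (hw x) (hw y)
    by_cases h : c x = c y
    · rw [if_pos h, if_pos]
      by_cases hxy : x = y
      · exact Or.inl hxy
      · right
        rintro e he ⟨hx, hy⟩
        exact hxy (hc e he x hx y hy h)
    · rw [if_neg h]
      split_ifs
      · exact h0
      · exact le_rfl
  have h2 : ∑ i : Fin k, (∑ v, if c v = i then w v else 0) = ∑ v, w v := by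
    rw [sum_comm]
    refine sum_congr rfl fun v _ => ?_
    rw [sum_ite_eq, if_pos (mem_univ _)]
  have h3 := sq_sum_le_card_mul_sum_sq (s := (univ : Finset (Fin k)))
    (f := fun i => ∑ v, if c v = i then w v else 0)
  rw [h2, card_univ, Fintype.card_fin] at h3
  exact h3.trans (mul_le_mul_of_nonneg_left h1 (Nat.cast_nonneg k))

end
end Pool.Agent.X8.K4
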